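import Pool.Agent.E8helper49.DD.Stm

/-! Project DD: Tutte's theorem for the icosahedral graph. -/

open Finset

namespace Pool.Agent.E8helper94.DD

open Pool.Agent.E8helper49.DD

theorem nbr_ne : ∀ v i, nbr v i ≠ v := by decide

theorem nbr_inj : ∀ v i j, nbr v i = nbr v j → i = j := by decide

/-- the tie break: `u` gets 50, the neighbours `i`, `i+1` get values below or above -/
def tau (u : Fin 12) (i : Fin 5) (s t : Bool) (w : Fin 12) : ℕ :=
  if w = u then 50 else if w = nbr u i then (if s then 60 else 20)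
  else if w = nbr u (i+1) then (if t then 61 else 21) else 70 + w

theorem tau_inj (u : Fin 12) (i : Fin 5) (s t : Bool) : Function.Injective (tau u i s t) := by
  intro w w' h
  have hw := w.2
  have hw' := w'.2
  unfold tau at h
  cases s <;> cases t <;> split_ifs at h <;> omega

/-- the signs around a vertex -/
noncomputable def bb (f : Fin 12 → ℝ) (τ : Fin 12 → ℕ) (v : Fin 12) (i : Fin 5) : Bool :=
  open Classical in decide (f v < f (nbr v i) ∨ (f v = f (nbr v i) ∧ τ v < τ (nbr v i)))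

theorem changes (h : S_A) (h' : S_COUNT) {w : Fin 12 → Fin 12 → ℝ} {f : Fin 12 → ℝ} (hw : Weights w)
    (hf : Harm w f) (hne : ¬ (f 0 = f 1 ∧ f 1 = f 2)) {τ : Fin 12 → ℕ} (hτ : Function.Injective τ)
    (v : Fin 12) (hv : 3 ≤ v) : (univ.filter fun i => bb f τ v i ≠ bb f τ v (i+1)).card = 2 := by
  classical
  have hA := h w f hw hf hne
  have key := h' (ℝ ×ₗ ℕ) (fun v => toLex (f v, τ v)) (fun a b hab => hτ (by
    have := congrArg (fun p => (ofLex p).2) hab
    simpa using this)) (fun v hv => by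
      obtain ⟨⟨i, hi⟩, j, hj⟩ := hA v hv
      exact ⟨⟨i, Prod.Lex.toLex_lt_toLex.2 (Or.inl hi)⟩, j, Prod.Lex.toLex_lt_toLex.2 (Or.inl hj)⟩) v hv
  rw [← key]
  congr 1
  apply Finset.filter_congr
  intro i _
  have e : ∀ j, (toLex (f v, τ v) < toLex (f (nbr v j), τ (nbr v j))) ↔ bb f τ v j = true := by
    intro j
    rw [Prod.Lex.toLex_lt_toLex]
    simp [bb]
  have e' : ∀ j, (toLex (f (nbr v j), τ (nbr v j)) < toLex (f v, τ v)) ↔ bb f τ v j = false := by
    intro j
    have hne : toLex (f v, τ v) ≠ toLex (f (nbr v j), τ (nbr v j)) := by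
      intro hh
      have := congrArg (fun p => (ofLex p).2) hh
      exact nbr_ne v j (hτ (by simpa using this.symm))
    constructor
    · intro hlt
      rw [← Bool.not_eq_true, ← e]
      exact not_lt_of_gt hlt
    · intro hb
      rw [← Bool.not_eq_true, ← e] at hb
      exact lt_of_le_of_ne (not_lt.1 hb) (Ne.symm hne)
  simp only [e, e']
  cases bb f τ v i <;> cases bb f τ v (i+1) <;> simp

theorem cyc (β : Fin 5 → Bool) (i : Fin 5) : (univ.filter fun j => β j ≠ β (j+1)).card =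
    (if β i ≠ β (i+1) then 1 else 0) + (if β (i+1) ≠ β (i+2) then 1 else 0) +
    (if β (i+2) ≠ β (i+3) then 1 else 0) + (if β (i+3) ≠ β (i+4) then 1 else 0) +
    (if β (i+4) ≠ β i then 1 else 0) := by
  rw [Finset.card_filter, ← Equiv.sum_comp (Equiv.addLeft i)]
  simp only [Equiv.coe_addLeft, Fin.sum_univ_five]
  have e0 : i + 0 = i := by omega
  have e1 : i + 0 + 1 = i + 1 := by omega
  have e2 : i + 1 + 1 = i + 2 := by omega
  have e3 : i + 2 + 1 = i + 3 := by omega
  have e4 : i + 3 + 1 = i + 4 := by omega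
  have e5 : i + 4 + 1 = i := by omega
  simp only [e0, e2, e3, e4, e5]

theorem harm_aff {w : Fin 12 → Fin 12 → ℝ} {x y : Fin 12 → ℝ} (hx : Harm w x) (hy : Harm w y)
    (a b c : ℝ) : Harm w (fun v => a * x v + b * y v + c) := by
  intro v hv
  have e : ∀ i, w v (nbr v i) * ((a * x (nbr v i) + b * y (nbr v i) + c) - (a * x v + b * y v + c))
      = a * (w v (nbr v i) * (x (nbr v i) - x v)) + b * (w v (nbr v i) * (y (nbr v i) - y v)) := by
    intro i; ring
  simp only [e, Finset.sum_add_distrib, ← Finset.mul_sum, hx v hv, hy v hv]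
  ring

theorem nc {x y : Fin 12 → ℝ} (ho : Outer x y) {a b : ℝ} (hab : a ≠ 0 ∨ b ≠ 0) (c : ℝ) :
    ¬ ((a * x 0 + b * y 0 + c = a * x 1 + b * y 1 + c) ∧
      (a * x 1 + b * y 1 + c = a * x 2 + b * y 2 + c)) := by
  obtain ⟨h0, h1, h2, h3, h4, h5⟩ := ho
  rw [h0, h1, h2, h3, h4, h5]
  rintro ⟨e1, e2⟩
  have hb : b = 0 := by linarith
  have ha : a = 0 := by linarith
  rcases hab with h | h
  · exact h ha
  · exact h hb

theorem bb_tie {f : Fin 12 → ℝ} {u : Fin 12} {i : Fin 5} {s t : Bool} (h : f u = f (nbr u i)) :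
    bb f (tau u i s t) u i = s := by
  have h1 := nbr_ne u i
  cases s <;> simp [bb, tau, h, h1]

theorem ne_succ : ∀ i : Fin 5, i + 1 ≠ i := by decide

theorem bb_tie' {f : Fin 12 → ℝ} {u : Fin 12} {i : Fin 5} {s t : Bool}
    (h : f u = f (nbr u (i+1))) : bb f (tau u i s t) u (i+1) = t := by
  have h1 := nbr_ne u (i+1)
  have h2 : nbr u (i+1) ≠ nbr u i := fun hh => ne_succ i (nbr_inj u _ _ hh)
  cases t <;> simp [bb, tau, h, h1, h2]

theorem bb_other {f : Fin 12 → ℝ} {u : Fin 12} {i j : Fin 5} {s t : Bool} (h1 : j ≠ i)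
    (h2 : j ≠ i + 1) : bb f (tau u i s t) u j = true ↔ f u ≤ f (nbr u j) := by
  have h3 := nbr_ne u j
  have h4 : nbr u j ≠ nbr u i := fun hh => h1 (nbr_inj u _ _ hh)
  have h5 : nbr u j ≠ nbr u (i+1) := fun hh => h2 (nbr_inj u _ _ hh)
  have h6 : 50 < 70 + (nbr u j : ℕ) := by omega
  simp only [bb, tau, h3, h4, h5, if_true, if_false, decide_eq_true_eq, h6, and_true]
  exact le_iff_lt_or_eq.symm

theorem bb_lt {f : Fin 12 → ℝ} {τ : Fin 12 → ℕ} {u : Fin 12} {j : Fin 5} (h : f u < f (nbr u j)) :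
    bb f τ u j = true := by
  simp [bb, h]

theorem bb_gt {f : Fin 12 → ℝ} {τ : Fin 12 → ℕ} {u : Fin 12} {j : Fin 5} (h : f (nbr u j) < f u) :
    bb f τ u j = false := by
  simp [bb, h.ne', not_lt.2 h.le]

theorem bool1 : ∀ p q r : Bool, ¬ (p = q ∧ q = r) → ∃ s t : Bool,
    (if s ≠ t then 1 else 0) + (if t ≠ p then 1 else 0) + (if p ≠ q then 1 else 0) +
    (if q ≠ r then 1 else 0) + (if r ≠ s then 1 else 0) ≠ 2 := by decide

theorem bool2 : ∀ p q : Bool, (p = false ∨ q = false) →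
    (if true ≠ false then 1 else 0) + (if false ≠ true then 1 else 0) +
    (if true ≠ p then 1 else 0) + (if p ≠ q then 1 else 0) + (if q ≠ true then 1 else 0) ≠ 2 := by
  decide

theorem five : ∀ i j : Fin 5, j = i ∨ j = i + 1 ∨ j = i + 2 ∨ j = i + 3 ∨ j = i + 4 := by decide

theorem idx : ∀ i : Fin 5, i + 2 ≠ i ∧ i + 2 ≠ i + 1 ∧ i + 3 ≠ i ∧ i + 3 ≠ i + 1 ∧ i + 4 ≠ i ∧
    i + 4 ≠ i + 1 ∧ i + 1 + 1 = i + 2 ∧ i + 3 ≠ i + 2 ∧ i + 4 ≠ i + 2 := by decide

/-- (1) no inner triangle is degenerate for `f` -/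
theorem no_tie (h : S_A) (h' : S_COUNT) {w : Fin 12 → Fin 12 → ℝ} {f : Fin 12 → ℝ} (hw : Weights w)
    (hf : Harm w f) (hne : ¬ (f 0 = f 1 ∧ f 1 = f 2)) (u : Fin 12) (hu : 3 ≤ u) (i : Fin 5) :
    ¬ (f u = f (nbr u i) ∧ f u = f (nbr u (i+1))) := by
  rintro ⟨t1, t2⟩
  obtain ⟨⟨j, hj⟩, l, hl⟩ := h w f hw hf hne u hu
  obtain ⟨d1, d2, d3, d4, d5, d6, -⟩ := idx i
  classical
  set P : Fin 5 → Bool := fun m => decide (f u ≤ f (nbr u m)) with hP
  have hPm : ∀ s t m, m ≠ i → m ≠ i + 1 → bb f (tau u i s t) u m = P m := by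
    intro s t m h1 h2
    rw [Bool.eq_iff_iff, bb_other h1 h2, hP]
    simp
  have hPj : P j = false := by simp [hP, hj]
  have hPl : P l = true := by simp [hP, hl.le]
  have hnot : ¬ (P (i+2) = P (i+3) ∧ P (i+3) = P (i+4)) := by
    rintro ⟨q1, q2⟩
    have hjj : j ≠ i ∧ j ≠ i + 1 := by
      constructor
      · rintro rfl; exact absurd t1 hj.ne'
      · rintro rfl; exact absurd t2 hj.ne'
    have hll : l ≠ i ∧ l ≠ i + 1 := by
      constructor
      · rintro rfl; exact absurd t1 hl.ne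
      · rintro rfl; exact absurd t2 hl.ne
    have : P j = P l := by
      rcases five i j with e | e | e | e | e
      · exact absurd e hjj.1
      · exact absurd e hjj.2
      all_goals
        rcases five i l with e' | e' | e' | e' | e'
        · exact absurd e' hll.1
        · exact absurd e' hll.2
        all_goals (rw [e, e']; try simp [q1, q2])
    rw [hPj, hPl] at this
    exact absurd this (by decide)
  obtain ⟨s, t, hst⟩ := bool1 _ _ _ hnot
  have hc := changes h h' hw hf hne (tau_inj u i s t) u hu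
  rw [cyc _ i, bb_tie t1, bb_tie' t2, hPm s t _ d1 d2, hPm s t _ d3 d4, hPm s t _ d5 d6] at hc
  exact hst hc

/-- (2) the two neighbours next to a tie are on different sides -/
theorem opp (h : S_A) (h' : S_COUNT) {w : Fin 12 → Fin 12 → ℝ} {f : Fin 12 → ℝ} (hw : Weights w)
    (hf : Harm w f) (hne : ¬ (f 0 = f 1 ∧ f 1 = f 2)) (u : Fin 12) (hu : 3 ≤ u) (i : Fin 5)
    (t : f u = f (nbr u (i+1))) : ¬ (f u < f (nbr u i) ∧ f u < f (nbr u (i+2))) := by
  rintro ⟨h1, h2⟩
  obtain ⟨⟨j, hj⟩, -⟩ := h w f hw hf hne u hu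
  have hc := changes h h' hw hf hne (tau_inj u (i+1) false false) u hu
  rw [cyc _ i, bb_lt h1, bb_lt h2, bb_tie t] at hc
  refine bool2 _ _ ?_ hc
  rcases five i j with e | e | e | e | e
  · subst e; exact absurd h1 (not_lt.2 hj.le)
  · subst e; exact absurd t hj.ne'
  · subst e; exact absurd h2 (not_lt.2 hj.le)
  · subst e; exact Or.inl (bb_gt hj)
  · subst e; exact Or.inr (bb_gt hj)

theorem ar_rot (x y : Fin 12 → ℝ) (a b c : Fin 12) : ar x y b c a = ar x y a b c := by
  unfold ar; ring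

theorem ar_lf (x y : Fin 12 → ℝ) (v : Fin 12) (i : Fin 5) :
    ar x y v (nbr v i) (nbr v (i+1)) = ar x y (face (lf v i) 0) (face (lf v i) 1)
      (face (lf v i) 2) := by
  obtain ⟨r, h1, h2, h3⟩ := lf_spec v i
  have e : ar x y v (nbr v i) (nbr v (i+1)) =
      ar x y (face (lf v i) r) (face (lf v i) (r+1)) (face (lf v i) (r+2)) := by rw [h1, h2, h3]
  rw [e]
  have hr : r = 0 ∨ r = 1 ∨ r = 2 := by omega
  rcases hr with rfl | rfl | rfl
  · rfl
  · exact ar_rot x y _ _ _
  · exact (ar_rot x y _ _ _).symm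

theorem exists_line (x y : Fin 12 → ℝ) (u v w : Fin 12) (h : ar x y u v w = 0) :
    ∃ a b c : ℝ, (a ≠ 0 ∨ b ≠ 0) ∧ a * x u + b * y u + c = a * x v + b * y v + c ∧
      a * x u + b * y u + c = a * x w + b * y w + c := by
  unfold ar at h
  by_cases h1 : x v = x u ∧ y v = y u
  · by_cases h2 : x w = x u ∧ y w = y u
    · exact ⟨1, 0, 0, Or.inl one_ne_zero, by rw [h1.1, h1.2], by rw [h2.1, h2.2]⟩
    · refine ⟨-(y w - y u), x w - x u, 0, ?_, ?_, by ring⟩
      · by_contra hh
        push Not at hh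
        exact h2 ⟨by linarith [hh.2], by linarith [hh.1]⟩
      · rw [h1.1, h1.2]
  · refine ⟨-(y v - y u), x v - x u, 0, ?_, by ring, by linarith⟩
    by_contra hh
    push Not at hh
    exact h1 ⟨by linarith [hh.2], by linarith [hh.1]⟩

theorem nondeg (h : S_A) (h' : S_COUNT) {w : Fin 12 → Fin 12 → ℝ} {x y : Fin 12 → ℝ}
    (hw : Weights w) (ho : Outer x y) (hx : Harm w x) (hy : Harm w y) (u : Fin 12) (hu : 3 ≤ u)
    (i : Fin 5) : ar x y u (nbr u i) (nbr u (i+1)) ≠ 0 := by
  intro h0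
  obtain ⟨a, b, c, hab, e1, e2⟩ := exists_line x y _ _ _ h0
  exact no_tie h h' hw (harm_aff hx hy a b c) (nc ho hab c) u hu i ⟨e1, e2⟩

theorem step (h : S_A) (h' : S_COUNT) {w : Fin 12 → Fin 12 → ℝ} {x y : Fin 12 → ℝ}
    (hw : Weights w) (ho : Outer x y) (hx : Harm w x) (hy : Harm w y) (u : Fin 12) (hu : 3 ≤ u)
    (i : Fin 5) (hp : 0 < ar x y u (nbr u i) (nbr u (i+1))) :
    0 < ar x y u (nbr u (i+1)) (nbr u (i+1+1)) := by
  have hn := nondeg h h' hw ho hx hy u hu (i+1)
  by_contra hcon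
  have hneg : ar x y u (nbr u (i+1)) (nbr u (i+1+1)) < 0 := lt_of_le_of_ne (not_lt.1 hcon) hn
  have hidx : i + 1 + 1 = i + 2 := (idx i).2.2.2.2.2.2.1
  rw [hidx] at hneg
  -- the function `- ar u v`
  set v := nbr u (i+1) with hv
  have hab : (y v - y u ≠ 0 ∨ -(x v - x u) ≠ 0) := by
    by_contra hh
    push Not at hh
    have e1 : y v - y u = 0 := hh.1
    have e2 : x v - x u = 0 := by linarith [hh.2]
    unfold ar at hneg
    rw [e1, e2] at hneg
    simp at hneg
  set c : ℝ := - ((y v - y u) * x u + (-(x v - x u)) * y u) with hc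
  have hf := harm_aff hx hy (y v - y u) (-(x v - x u)) c
  refine opp h h' hw hf (nc ho hab c) u hu i ?_ ⟨?_, ?_⟩
  · simp only [← hv]
    ring
  · have e : (y v - y u) * x (nbr u i) + -(x v - x u) * y (nbr u i) + c
        = ar x y u (nbr u i) v := by
      unfold ar; rw [hc]; ring
    have e' : (y v - y u) * x u + -(x v - x u) * y u + c = 0 := by rw [hc]; ring
    show (y v - y u) * x u + -(x v - x u) * y u + c < (y v - y u) * x (nbr u i) + -(x v - x u) * y (nbr u i) + c
    rw [e, e']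
    exact hp
  · have e : (y v - y u) * x (nbr u (i+2)) + -(x v - x u) * y (nbr u (i+2)) + c
        = - ar x y u v (nbr u (i+2)) := by
      unfold ar; rw [hc]; ring
    have e' : (y v - y u) * x u + -(x v - x u) * y u + c = 0 := by rw [hc]; ring
    show (y v - y u) * x u + -(x v - x u) * y u + c <
      (y v - y u) * x (nbr u (i+2)) + -(x v - x u) * y (nbr u (i+2)) + c
    rw [e, e']
    linarith

theorem all_around (h : S_A) (h' : S_COUNT) {w : Fin 12 → Fin 12 → ℝ} {x y : Fin 12 → ℝ}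
    (hw : Weights w) (ho : Outer x y) (hx : Harm w x) (hy : Harm w y) (u : Fin 12) (hu : 3 ≤ u)
    (i j : Fin 5)
    (hp : 0 < ar x y (face (lf u i) 0) (face (lf u i) 1) (face (lf u i) 2)) :
    0 < ar x y (face (lf u j) 0) (face (lf u j) 1) (face (lf u j) 2) := by
  rw [← ar_lf] at hp ⊢
  have s := step h h' hw ho hx hy u hu
  have h1 := s _ hp
  have h2 := s _ h1
  have h3 := s _ h2
  have h4 := s _ h3
  have e : ∀ i : Fin 5, i + 1 + 1 = i + 2 ∧ i + 1 + 1 + 1 = i + 3 ∧ i + 1 + 1 + 1 + 1 = i + 4 := by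
    decide
  rcases five i j with q | q | q | q | q
  · rw [q]; exact hp
  · rw [q]; exact h1
  · rw [q, ← (e i).1]; exact h2
  · rw [q, ← (e i).2.1]; exact h3
  · rw [q, ← (e i).2.2]; exact h4

theorem t_TUTTE (h0 : S_MP) (h : S_A) (h' : S_COUNT) : S_TUTTE := by
  intro w x y hw ho hx hy
  have key : ∀ u : Fin 12, 3 ≤ u → ∀ i j : Fin 5,
      0 < ar x y (face (lf u i) 0) (face (lf u i) 1) (face (lf u i) 2) →
      0 < ar x y (face (lf u j) 0) (face (lf u j) 1) (face (lf u j) 2) :=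
    fun u hu i j => all_around h h' hw ho hx hy u hu i j
  -- start
  have a1 : 0 < ar x y (face 1 0) (face 1 1) (face 1 2) := by
    have hy3 : 0 ≤ y 3 := by
      have hm := h0 w (fun v => 0 * x v + (-1) * y v + 0) 0 hw (harm_aff hx hy 0 (-1) 0) (by
        intro v hv
        obtain ⟨q0, q1, q2, q3, q4, q5⟩ := ho
        have : v = 0 ∨ v = 1 ∨ v = 2 := by
          revert hv; revert v; decide
        rcases this with rfl | rfl | rfl
        · simp [q1]
        · simp [q3]
        · simp [q5]) 3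
      simpa using hm
    have hnd := nondeg h h' hw ho hx hy 3 (by decide) 0
    rw [ar_lf] at hnd
    have e : ar x y (face (lf 3 0) 0) (face (lf 3 0) 1) (face (lf 3 0) 2) = y 3 := by
      obtain ⟨q0, q1, q2, q3, q4, q5⟩ := ho
      show ar x y 0 2 3 = y 3
      unfold ar
      rw [q0, q1, q4, q5]
      ring
    have e' : ar x y (face 1 0) (face 1 1) (face 1 2) = y 3 := e
    rw [e'] 
    rw [e] at hnd
    exact lt_of_le_of_ne hy3 (Ne.symm hnd)
  have a6 := key 3 (by decide) 0 1 a1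
  have a12 := key 3 (by decide) 0 2 a1
  have a7 := key 3 (by decide) 0 3 a1
  have a2 := key 3 (by decide) 0 4 a1
  have a13 := key 4 (by decide) 0 2 a2
  have a8 := key 4 (by decide) 0 3 a2
  have a3 := key 4 (by decide) 0 4 a2
  have a14 := key 5 (by decide) 0 2 a3
  have a9 := key 5 (by decide) 0 3 a3
  have a4 := key 5 (by decide) 0 4 a3
  have a11 := key 7 (by decide) 0 1 a6
  have a16 := key 7 (by decide) 0 2 a6
  have a17 := key 7 (by decide) 0 3 a6
  have a5 := key 6 (by decide) 4 0 a11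
  have a10 := key 6 (by decide) 4 1 a11
  have a15 := key 6 (by decide) 4 2 a11
  have a18 := key 8 (by decide) 0 3 a7
  have a19 := key 9 (by decide) 0 3 a8
  intro T hT
  fin_cases T
  · exact absurd rfl hT
  · exact a1
  · exact a2
  · exact a3
  · exact a4
  · exact a5
  · exact a6
  · exact a7
  · exact a8
  · exact a9
  · exact a10
  · exact a11
  · exact a12
  · exact a13
  · exact a14
  · exact a15
  · exact a16
  · exact a17
  · exact a18
  · exact a19

end Pool.Agent.E8helper94.DD
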